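import Mathlib

namespace Pool.Agent.Results.MP_ed46bc_co.Duality

open Finset

section defs
variable {G : Type*} [AddCommGroup G] [Fintype G] [DecidableEq G]

/-- `P(G,k,A)`: the number of ordered `k`-tuples of elements of `A` whose sum lies in `A`. -/
def PA (k : ℕ) (A : Finset G) : ℕ :=
  (univ.filter (fun a : Fin k → G => (∀ i, a i ∈ A) ∧ ∑ i, a i ∈ A)).card

variable (G) in
/-- `P(G,k,m)`: the minimum of `P(G,k,A)` over the `m`-element subsets `A` of `G`. -/
noncomputable def P (k m : ℕ) : ℕ := sInf {x : ℕ | ∃ A : Finset G, A.card = m ∧ PA k A = x}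

end defs

section conv
variable {G : Type*} [AddCommGroup G] [Fintype G] [DecidableEq G]

/-- `k`-fold convolution power of a function. -/
def cv (f : G → ℚ) : ℕ → G → ℚ
  | 0 => fun x => if x = 0 then 1 else 0
  | k+1 => fun x => ∑ y, f y * cv f k (x - y)

lemma cv_one (f : G → ℚ) (x : G) : cv f 1 x = f x := by
  simp only [cv]
  rw [Finset.sum_eq_single x]
  · simp
  · intro y _ hy
    rw [if_neg, mul_zero]
    intro h
    exact hy (sub_eq_zero.mp h).symm
  · intro h; exact absurd (mem_univ x) h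

lemma sum_tuples (f : G → ℚ) (k : ℕ) (F : G → ℚ) :
    ∑ a : Fin k → G, (∏ i, f (a i)) * F (∑ i, a i) = ∑ x, cv f k x * F x := by
  induction k generalizing F with
  | zero => simp [cv]
  | succ k ih =>
    rw [← (Fin.consEquiv (fun _ => G)).sum_comp, Fintype.sum_prod_type]
    simp only [Fin.consEquiv_apply, Fin.prod_univ_succ, Fin.sum_univ_succ, Fin.cons_zero,
      Fin.cons_succ]
    have h1 : ∀ y, ∑ a : Fin k → G, (f y * ∏ i, f (a i)) * F (y + ∑ i, a i)
        = f y * ∑ x, cv f k x * F (y + x) := by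
      intro y
      rw [← ih (fun x => F (y + x)), Finset.mul_sum]
      exact Finset.sum_congr rfl (fun a _ => by ring)
    rw [Finset.sum_congr rfl (fun y _ => h1 y)]
    have h2 : ∑ x, cv f (k+1) x * F x = ∑ x, ∑ y, f y * cv f k (x - y) * F x := by
      refine Finset.sum_congr rfl (fun x _ => ?_)
      simp only [cv]
      rw [Finset.sum_mul]
    rw [h2, Finset.sum_comm]
    refine Finset.sum_congr rfl (fun y _ => ?_)
    rw [Finset.mul_sum, ← Equiv.sum_comp (Equiv.addLeft y) (fun x => f y * cv f k (x - y) * F x)]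
    refine Finset.sum_congr rfl (fun x _ => ?_)
    simp only [Equiv.coe_addLeft, add_sub_cancel_left]
    ring

/-- The counting form. -/
def S (k : ℕ) (f : G → ℚ) : ℚ := ∑ x, cv f k x * f x

/-- indicator -/
def ind (A : Finset G) (x : G) : ℚ := if x ∈ A then 1 else 0

lemma PA_eq (k : ℕ) (A : Finset G) : (PA k A : ℚ) = S k (ind A) := by
  rw [S, ← sum_tuples]
  unfold PA ind
  rw [Finset.card_filter]
  push_cast
  refine Finset.sum_congr rfl (fun a _ => ?_)
  by_cases h1 : ∀ i, a i ∈ A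
  · by_cases h2 : ∑ i, a i ∈ A
    · simp [h1, h2]
    · simp [h2]
  · have : ∏ i, (if a i ∈ A then (1:ℚ) else 0) = 0 := by
      push Not at h1
      obtain ⟨i, hi⟩ := h1
      exact Finset.prod_eq_zero (mem_univ i) (by simp [hi])
    simp [h1, this]

omit [AddCommGroup G] in
lemma sum_ind (A : Finset G) : ∑ x, ind A x = A.card := by
  simp [ind]

/-- shift lemma inside a subgroup -/
lemma cv_shift (H : AddSubgroup G) [DecidablePred (· ∈ H)] (φ : G → ℚ) (c : ℚ)
    (hφ : ∀ x, x ∉ H → φ x = 0) (hs : ∑ x, φ x = 0) (N : ℚ)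
    (hN : ∑ x : G, (if x ∈ H then (1:ℚ) else 0) = N) (k : ℕ) :
    (∀ x, cv (fun x => φ x + c * (if x ∈ H then 1 else 0)) (k+1) x
      = cv φ (k+1) x + c^(k+1) * N^k * (if x ∈ H then 1 else 0))
    ∧ (∀ x, x ∉ H → cv φ (k+1) x = 0) ∧ ∑ x, cv φ (k+1) x = 0 := by
  -- convolution facts
  have hconv : ∀ (ψ : G → ℚ), (∀ x, x ∉ H → ψ x = 0) → (∑ x, ψ x = 0) → ∀ x,
      ∑ y, ψ y * (if x - y ∈ H then (1:ℚ) else 0) = 0 := by
    intro ψ h1 h2 x
    by_cases hx : x ∈ H
    · rw [← h2]
      refine Finset.sum_congr rfl (fun y _ => ?_)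
      by_cases hy : y ∈ H
      · rw [if_pos (H.sub_mem hx hy), mul_one]
      · rw [h1 y hy, zero_mul]
    · refine Finset.sum_eq_zero (fun y _ => ?_)
      by_cases hy : y ∈ H
      · rw [if_neg, mul_zero]
        intro h
        exact hx (by simpa using H.add_mem h hy)
      · rw [h1 y hy, zero_mul]
  have hconv2 : ∀ (ψ : G → ℚ), (∀ x, x ∉ H → ψ x = 0) → (∑ x, ψ x = 0) → ∀ x,
      ∑ y, (if y ∈ H then (1:ℚ) else 0) * ψ (x - y) = 0 := by
    intro ψ h1 h2 x
    refine Eq.trans ?_ (hconv ψ h1 h2 x)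
    rw [← Equiv.sum_comp (Equiv.subLeft x)
      (fun y => (if y ∈ H then (1:ℚ) else 0) * ψ (x - y))]
    refine Finset.sum_congr rfl (fun y _ => ?_)
    simp only [Equiv.subLeft_apply, sub_sub_cancel]
    rw [mul_comm]
  have hHH : ∀ x, ∑ y, (if y ∈ H then (1:ℚ) else 0) * (if x - y ∈ H then (1:ℚ) else 0)
      = N * (if x ∈ H then 1 else 0) := by
    intro x
    by_cases hx : x ∈ H
    · rw [if_pos hx, mul_one, ← hN]
      refine Finset.sum_congr rfl (fun y _ => ?_)
      by_cases hy : y ∈ H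
      · rw [if_pos (H.sub_mem hx hy), mul_one]
      · simp [hy]
    · rw [if_neg hx, mul_zero]
      refine Finset.sum_eq_zero (fun y _ => ?_)
      by_cases hy : y ∈ H
      · rw [if_neg (show ¬ (x - y ∈ H) from ?_), mul_zero]
        intro h
        exact hx (by simpa using H.add_mem h hy)
      · simp [hy]
  induction k with
  | zero =>
    refine ⟨?_, ?_, ?_⟩
    · intro x
      rw [cv_one, cv_one]; simp
    · intro x hx; rw [cv_one]; exact hφ x hx
    · rw [Finset.sum_congr rfl (fun x _ => cv_one φ x)]; exact hs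
  | succ k ih =>
    obtain ⟨ih1, ih2, ih3⟩ := ih
    refine ⟨?_, ?_, ?_⟩
    · intro x
      have e0 : cv (fun x => φ x + c * (if x ∈ H then (1:ℚ) else 0)) (k+1+1) x
          = ∑ y, (φ y + c * (if y ∈ H then (1:ℚ) else 0)) *
            cv (fun x => φ x + c * (if x ∈ H then (1:ℚ) else 0)) (k+1) (x - y) := rfl
      rw [e0, Finset.sum_congr rfl (fun y _ => by rw [ih1 (x - y)])]
      have e1 : ∑ y, (φ y + c * (if y ∈ H then (1:ℚ) else 0)) *
          (cv φ (k+1) (x - y) + c^(k+1) * N^k * (if x - y ∈ H then (1:ℚ) else 0))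
          = ∑ y, φ y * cv φ (k+1) (x - y)
            + c^(k+1) * N^k * ∑ y, φ y * (if x - y ∈ H then (1:ℚ) else 0)
            + c * ∑ y, (if y ∈ H then (1:ℚ) else 0) * cv φ (k+1) (x - y)
            + c * (c^(k+1) * N^k) *
              ∑ y, (if y ∈ H then (1:ℚ) else 0) * (if x - y ∈ H then (1:ℚ) else 0) := by
        rw [Finset.mul_sum, Finset.mul_sum, Finset.mul_sum, ← Finset.sum_add_distrib,
          ← Finset.sum_add_distrib, ← Finset.sum_add_distrib]
        exact Finset.sum_congr rfl (fun y _ => by ring)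
      rw [e1, hconv φ hφ hs x, hconv2 _ ih2 ih3 x, hHH x]
      rw [show cv φ (k+1+1) x = ∑ y, φ y * cv φ (k+1) (x - y) from rfl]
      ring
    · intro x hx
      have e0 : cv φ (k+1+1) x = ∑ y, φ y * cv φ (k+1) (x - y) := rfl
      rw [e0]
      refine Finset.sum_eq_zero (fun y _ => ?_)
      by_cases hy : y ∈ H
      · rw [ih2 (x - y), mul_zero]
        intro h
        exact hx (by simpa using H.add_mem h hy)
      · rw [hφ y hy, zero_mul]
    · have e0 : ∑ x, cv φ (k+1+1) x = ∑ x, ∑ y, φ y * cv φ (k+1) (x - y) := rfl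
      rw [e0, Finset.sum_comm]
      refine Finset.sum_eq_zero (fun y _ => ?_)
      rw [← Finset.mul_sum]
      have e1 : ∑ x, cv φ (k+1) (x - y) = ∑ x, cv φ (k+1) x :=
        Equiv.sum_comp (Equiv.subRight y) (fun z => cv φ (k+1) z)
      rw [e1, ih3, mul_zero]

lemma S_shift (H : AddSubgroup G) [DecidablePred (· ∈ H)] (φ : G → ℚ) (c : ℚ)
    (hφ : ∀ x, x ∉ H → φ x = 0) (hs : ∑ x, φ x = 0) (N : ℚ)
    (hN : ∑ x : G, (if x ∈ H then (1:ℚ) else 0) = N) (k : ℕ) :
    S (k+1) (fun x => φ x + c * (if x ∈ H then 1 else 0)) = S (k+1) φ + c^(k+2) * N^(k+1) := by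
  obtain ⟨h1, h2, h3⟩ := cv_shift H φ c hφ hs N hN k
  unfold S
  rw [Finset.sum_congr rfl (fun x _ => by rw [h1 x])]
  have e1 : ∑ x, (cv φ (k+1) x + c^(k+1) * N^k * (if x ∈ H then (1:ℚ) else 0)) *
      (φ x + c * (if x ∈ H then (1:ℚ) else 0))
      = ∑ x, cv φ (k+1) x * φ x + c * ∑ x, cv φ (k+1) x * (if x ∈ H then (1:ℚ) else 0)
        + c^(k+1) * N^k * ∑ x, (if x ∈ H then (1:ℚ) else 0) * φ x
        + c^(k+2) * N^k * ∑ x : G, (if x ∈ H then (1:ℚ) else 0) * (if x ∈ H then (1:ℚ) else 0) := by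
    rw [Finset.mul_sum, Finset.mul_sum, Finset.mul_sum, ← Finset.sum_add_distrib,
      ← Finset.sum_add_distrib, ← Finset.sum_add_distrib]
    exact Finset.sum_congr rfl (fun y _ => by ring)
  have e2 : ∑ x, cv φ (k+1) x * (if x ∈ H then (1:ℚ) else 0) = 0 := by
    rw [← h3]
    refine Finset.sum_congr rfl (fun x _ => ?_)
    by_cases hx : x ∈ H
    · rw [if_pos hx, mul_one]
    · rw [h2 x hx, zero_mul]
  have e3 : ∑ x, (if x ∈ H then (1:ℚ) else 0) * φ x = 0 := by
    rw [← hs]
    refine Finset.sum_congr rfl (fun x _ => ?_)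
    by_cases hx : x ∈ H
    · rw [if_pos hx, one_mul]
    · rw [hφ x hx, mul_zero]
  have e4 : ∑ x : G, (if x ∈ H then (1:ℚ) else 0) * (if x ∈ H then (1:ℚ) else 0) = N := by
    rw [← hN]
    refine Finset.sum_congr rfl (fun x _ => ?_)
    by_cases hx : x ∈ H <;> simp [hx]
  rw [e1, e2, e3, e4]
  ring

lemma cv_neg (φ : G → ℚ) (k : ℕ) (x : G) : cv (fun x => - φ x) k x = (-1)^k * cv φ k x := by
  induction k generalizing x with
  | zero => simp [cv]
  | succ k ih =>
    have e0 : cv (fun x => - φ x) (k+1) x = ∑ y, (- φ y) * cv (fun x => - φ x) k (x - y) := rfl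
    have e1 : cv φ (k+1) x = ∑ y, φ y * cv φ k (x - y) := rfl
    rw [e0, e1, Finset.mul_sum]
    refine Finset.sum_congr rfl (fun y _ => ?_)
    rw [ih]; ring

lemma S_neg (φ : G → ℚ) (k : ℕ) : S k (fun x => - φ x) = (-1)^(k+1) * S k φ := by
  unfold S
  rw [Finset.mul_sum]
  refine Finset.sum_congr rfl (fun x _ => ?_)
  rw [cv_neg]; ring

/-- The complement identity inside a subgroup `H` of order `N`. -/
lemma PA_complement (H : AddSubgroup G) [DecidablePred (· ∈ H)] (B B' : Finset G)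
    (hBB : ∀ x, x ∈ H ↔ (x ∈ B ∨ x ∈ B')) (hdis : ∀ x, x ∈ B → x ∉ B') (k : ℕ) :
    ((B.card : ℚ) + B'.card) * PA (k+1) B = (B.card : ℚ)^(k+2)
      + (-1)^(k+2) * (((B.card : ℚ) + B'.card) * PA (k+1) B' - (B'.card : ℚ)^(k+2)) := by
  set N : ℚ := (B.card : ℚ) + B'.card with hNdef
  have hN : ∑ x : G, (if x ∈ H then (1:ℚ) else 0) = N := by
    rw [hNdef, ← sum_ind B, ← sum_ind B', ← Finset.sum_add_distrib]
    refine Finset.sum_congr rfl (fun x _ => ?_)
    unfold ind
    by_cases h1 : x ∈ B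
    · rw [if_pos h1, if_neg (hdis x h1), if_pos ((hBB x).mpr (Or.inl h1))]; norm_num
    · by_cases h2 : x ∈ B'
      · rw [if_neg h1, if_pos h2, if_pos ((hBB x).mpr (Or.inr h2))]; norm_num
      · rw [if_neg h1, if_neg h2, if_neg]
        · norm_num
        · intro h
          rcases (hBB x).mp h with h | h
          · exact h1 h
          · exact h2 h
  have hNpos : 0 < N := by
    rw [← hN]
    refine Finset.sum_pos' (fun x _ => by split_ifs <;> norm_num) ⟨0, mem_univ _, ?_⟩
    rw [if_pos H.zero_mem]; norm_num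
  set c : ℚ := B.card / N with hc
  set φ : G → ℚ := fun x => ind B x - c * (if x ∈ H then 1 else 0) with hφdef
  have hφ : ∀ x, x ∉ H → φ x = 0 := by
    intro x hx
    have : x ∉ B := fun h => hx ((hBB x).mpr (Or.inl h))
    simp [hφdef, ind, hx, this]
  have hs : ∑ x, φ x = 0 := by
    simp only [hφdef]
    rw [Finset.sum_sub_distrib, sum_ind, ← Finset.mul_sum, hN, hc]
    field_simp
    ring
  have h1 : ind B = fun x => φ x + c * (if x ∈ H then 1 else 0) := by
    funext x; simp only [hφdef]; ring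
  have h2 : ind B' = fun x => (- φ x) + (1 - c) * (if x ∈ H then 1 else 0) := by
    funext x
    simp only [hφdef, ind]
    by_cases h1 : x ∈ B
    · rw [if_pos h1, if_neg (hdis x h1), if_pos ((hBB x).mpr (Or.inl h1))]; ring
    · by_cases h2 : x ∈ B'
      · rw [if_neg h1, if_pos h2, if_pos ((hBB x).mpr (Or.inr h2))]; ring
      · rw [if_neg h1, if_neg h2, if_neg]
        · ring
        · intro h
          rcases (hBB x).mp h with h | h
          · exact h1 h
          · exact h2 h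
  have hs' : ∑ x, (fun x => - φ x) x = 0 := by
    simp only [Finset.sum_neg_distrib, hs, neg_zero]
  have hφ' : ∀ x, x ∉ H → (fun x => - φ x) x = 0 := by
    intro x hx; simp [hφ x hx]
  have hN0 : N ≠ 0 := ne_of_gt hNpos
  have hc' : 1 - c = B'.card / N := by
    rw [eq_div_iff hN0, sub_mul, one_mul, hc, div_mul_cancel₀ _ hN0, hNdef]; ring
  have e1 := S_shift H φ c hφ hs N hN k
  have e2 := S_shift H (fun x => - φ x) (1 - c) hφ' hs' N hN k
  rw [← h1, ← PA_eq] at e1
  rw [← h2, ← PA_eq, S_neg] at e2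
  rw [e1, e2, hc', hc, div_pow, div_pow]
  have hsq : ((-1:ℚ)^(k+2)) * (-1)^(k+2) = 1 := by rw [← mul_pow]; norm_num
  have hdiv : ∀ X : ℚ, N * (X / N^(k+2) * N^(k+1)) = X := by
    intro X
    have h3 : N^(k+2) = N^(k+1) * N := pow_succ N (k+1)
    have h4 : N^(k+1) ≠ 0 := pow_ne_zero _ hN0
    have h5 : N^(k+1) * N ≠ 0 := mul_ne_zero h4 hN0
    rw [h3, div_mul_eq_mul_div, mul_div_assoc', div_eq_iff h5]
    ring
  have e3 : N * ((B.card:ℚ)^(k+2) / N^(k+2) * N^(k+1)) = (B.card:ℚ)^(k+2) := hdiv _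
  have e4 : N * ((B'.card:ℚ)^(k+2) / N^(k+2) * N^(k+1)) = (B'.card:ℚ)^(k+2) := hdiv _
  rw [mul_add, mul_add, e3, e4]
  rw [show k + 1 + 1 = k + 2 from rfl]
  linear_combination (-(N * S (k+1) φ)) * hsq

end conv

section pol
variable {G : Type*} [AddCommGroup G] [Fintype G] [DecidableEq G]

omit [DecidableEq G] in
lemma sum_shift_right (F : G → ℚ) (v : G) : ∑ y, F (y + v) = ∑ y, F y :=
  Equiv.sum_comp (Equiv.addRight v) F

lemma cv_split (s δ : G → ℚ) (v : G) (hv : v + v = 0) (hs : ∀ x, s (x+v) = s x)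
    (hδ : ∀ x, δ (x+v) = -δ x) (k : ℕ) :
    (∀ x, cv (fun x => s x + δ x) (k+1) x = cv s (k+1) x + cv δ (k+1) x) ∧
    (∀ x, cv s (k+1) (x+v) = cv s (k+1) x) ∧ (∀ x, cv δ (k+1) (x+v) = - cv δ (k+1) x) := by
  have hneg : ∀ x y : G, x - (y + v) = (x - y) + v := by
    intro x y
    have : -v = v := by rw [neg_eq_iff_add_eq_zero]; exact hv
    calc x - (y + v) = (x - y) + (-v) := by abel
      _ = (x - y) + v := by rw [this]
  have hsw : ∀ x y : G, x + v - y = (x - y) + v := by intro x y; abel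
  have h1 : ∀ (α β : G → ℚ), (∀ x, α (x+v) = α x) → (∀ x, β (x+v) = - β x) → ∀ x,
      ∑ y, α y * β (x - y) = 0 := by
    intro α β hα hβ x
    have e := sum_shift_right (fun y => α y * β (x - y)) v
    simp only [hα, hneg, hβ, mul_neg, Finset.sum_neg_distrib] at e
    linarith
  have h2 : ∀ (α β : G → ℚ), (∀ x, α (x+v) = α x) → (∀ x, β (x+v) = - β x) → ∀ x,
      ∑ y, β y * α (x - y) = 0 := by
    intro α β hα hβ x
    have e := sum_shift_right (fun y => β y * α (x - y)) v
    simp only [hα, hneg, hβ, neg_mul, Finset.sum_neg_distrib] at e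
    linarith
  induction k with
  | zero =>
    refine ⟨fun x => ?_, fun x => ?_, fun x => ?_⟩
    · rw [cv_one, cv_one, cv_one]
    · rw [cv_one, cv_one]; exact hs x
    · rw [cv_one, cv_one]; exact hδ x
  | succ k ih =>
    obtain ⟨i1, i2, i3⟩ := ih
    refine ⟨fun x => ?_, fun x => ?_, fun x => ?_⟩
    · have e0 : cv (fun x => s x + δ x) (k+1+1) x
          = ∑ y, (s y + δ y) * cv (fun x => s x + δ x) (k+1) (x - y) := rfl
      have e1 : cv s (k+1+1) x = ∑ y, s y * cv s (k+1) (x - y) := rfl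
      have e2 : cv δ (k+1+1) x = ∑ y, δ y * cv δ (k+1) (x - y) := rfl
      rw [e0, Finset.sum_congr rfl (fun y _ => by rw [i1 (x - y)])]
      have e3 : ∑ y, (s y + δ y) * (cv s (k+1) (x - y) + cv δ (k+1) (x - y))
          = ∑ y, s y * cv s (k+1) (x - y) + ∑ y, s y * cv δ (k+1) (x - y)
            + ∑ y, δ y * cv s (k+1) (x - y) + ∑ y, δ y * cv δ (k+1) (x - y) := by
        rw [← Finset.sum_add_distrib, ← Finset.sum_add_distrib, ← Finset.sum_add_distrib]
        exact Finset.sum_congr rfl (fun y _ => by ring)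
      rw [e3, h1 s _ hs i3 x, h2 _ δ i2 hδ x, e1, e2]
      ring
    · have e1 : ∀ z, cv s (k+1+1) z = ∑ y, s y * cv s (k+1) (z - y) := fun z => rfl
      rw [e1, e1]
      exact Finset.sum_congr rfl (fun y _ => by rw [hsw, i2])
    · have e1 : ∀ z, cv δ (k+1+1) z = ∑ y, δ y * cv δ (k+1) (z - y) := fun z => rfl
      rw [e1, e1, ← Finset.sum_neg_distrib]
      exact Finset.sum_congr rfl (fun y _ => by rw [hsw, i3]; ring)

lemma S_split (s δ : G → ℚ) (v : G) (hv : v + v = 0) (hs : ∀ x, s (x+v) = s x)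
    (hδ : ∀ x, δ (x+v) = -δ x) (k : ℕ) :
    S (k+1) (fun x => s x + δ x) = S (k+1) s + S (k+1) δ := by
  obtain ⟨i1, i2, i3⟩ := cv_split s δ v hv hs hδ k
  unfold S
  rw [Finset.sum_congr rfl (fun x _ => by rw [i1 x])]
  have e3 : ∑ x, (cv s (k+1) x + cv δ (k+1) x) * (s x + δ x)
      = ∑ x, cv s (k+1) x * s x + ∑ x, cv s (k+1) x * δ x
        + ∑ x, cv δ (k+1) x * s x + ∑ x, cv δ (k+1) x * δ x := by
    rw [← Finset.sum_add_distrib, ← Finset.sum_add_distrib, ← Finset.sum_add_distrib]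
    exact Finset.sum_congr rfl (fun y _ => by ring)
  have h1 : ∑ x, cv s (k+1) x * δ x = 0 := by
    have e := sum_shift_right (fun y => cv s (k+1) y * δ y) v
    simp only [i2, hδ, mul_neg, Finset.sum_neg_distrib] at e
    linarith
  have h2 : ∑ x, cv δ (k+1) x * s x = 0 := by
    have e := sum_shift_right (fun y => cv δ (k+1) y * s y) v
    simp only [i3, hs, neg_mul, Finset.sum_neg_distrib] at e
    linarith
  rw [e3, h1, h2]; ring

lemma cv_abs (δ : G → ℚ) (k : ℕ) (x : G) : |cv δ k x| ≤ cv (fun x => |δ x|) k x := by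
  induction k generalizing x with
  | zero =>
    simp only [cv]
    split_ifs <;> simp
  | succ k ih =>
    have e0 : cv δ (k+1) x = ∑ y, δ y * cv δ k (x - y) := rfl
    have e1 : cv (fun x => |δ x|) (k+1) x = ∑ y, |δ y| * cv (fun x => |δ x|) k (x - y) := rfl
    rw [e0, e1]
    refine le_trans (Finset.abs_sum_le_sum_abs _ _) (Finset.sum_le_sum (fun y _ => ?_))
    rw [abs_mul]
    exact mul_le_mul_of_nonneg_left (ih _) (abs_nonneg _)

lemma S_abs (δ : G → ℚ) (k : ℕ) : S k δ ≤ S k (fun x => |δ x|) := by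
  unfold S
  refine Finset.sum_le_sum (fun x _ => ?_)
  refine le_trans (le_abs_self _) ?_
  rw [abs_mul]
  exact mul_le_mul_of_nonneg_right (cv_abs δ k x) (abs_nonneg _)

lemma cv_chi (χ h : G → ℚ) (hχ0 : χ 0 = 1) (hχ : ∀ x y, χ (x + y) = χ x * χ y) (k : ℕ) (x : G) :
    cv (fun x => χ x * h x) k x = χ x * cv h k x := by
  induction k generalizing x with
  | zero =>
    simp only [cv]
    split_ifs with h0
    · rw [h0, hχ0]; norm_num
    · ring
  | succ k ih =>
    have e0 : cv (fun x => χ x * h x) (k+1) x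
      = ∑ y, (χ y * h y) * cv (fun x => χ x * h x) k (x - y) := rfl
    have e1 : cv h (k+1) x = ∑ y, h y * cv h k (x - y) := rfl
    rw [e0, e1, Finset.mul_sum]
    refine Finset.sum_congr rfl (fun y _ => ?_)
    rw [ih]
    have : χ x = χ y * χ (x - y) := by rw [← hχ]; congr 1; abel
    rw [this]; ring

lemma S_chi (χ h : G → ℚ) (hχ0 : χ 0 = 1) (hχ : ∀ x y, χ (x + y) = χ x * χ y)
    (hχ2 : ∀ x, χ x * χ x = 1) (k : ℕ) : S k (fun x => χ x * h x) = S k h := by
  unfold S
  refine Finset.sum_congr rfl (fun x _ => ?_)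
  rw [cv_chi χ h hχ0 hχ]
  linear_combination (cv h k x * h x) * hχ2 x

/-- Polarization of `B` with respect to the involution `x ↦ x + v` and the half space
`ℓ = 0`. -/
def pol (ℓ : G → ZMod 2) (v : G) (B : Finset G) : Finset G :=
  univ.filter (fun x => (ℓ x = 0 ∧ (x ∈ B ∨ x + v ∈ B)) ∨ (ℓ x ≠ 0 ∧ (x ∈ B ∧ x + v ∈ B)))

lemma pol_main (ℓ : G →+ ZMod 2) (v : G) (hv : v + v = 0) (hℓ : ℓ v = 1) (B : Finset G) (k : ℕ) :
    (pol ℓ v B).card = B.card ∧ PA (k+1) B ≤ PA (k+1) (pol ℓ v B) := by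
  set s : G → ℚ := fun x => (ind B x + ind B (x+v))/2 with hs
  set δ : G → ℚ := fun x => (ind B x - ind B (x+v))/2 with hδ
  set χ : G → ℚ := fun x => if ℓ x = 0 then 1 else -1 with hχ
  have hvv : ∀ x, x + v + v = x := by intro x; rw [add_assoc, hv, add_zero]
  have h1 : ∀ x, s (x+v) = s x := by intro x; simp only [hs, hvv]; ring
  have h2 : ∀ x, δ (x+v) = - δ x := by intro x; simp only [hδ, hvv]; ring
  have hZ : ∀ a b : ZMod 2, (if a + b = 0 then (1:ℚ) else -1)
      = (if a = 0 then (1:ℚ) else -1) * (if b = 0 then (1:ℚ) else -1) := by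
    intro a b
    have h01 : ∀ a : ZMod 2, a = 0 ∨ a = 1 := by decide
    have h10 : (1 : ZMod 2) ≠ 0 := by decide
    have h11 : (1 : ZMod 2) + 1 = 0 := by decide
    rcases h01 a with rfl | rfl <;> rcases h01 b with rfl | rfl <;> simp [h10, h11]
  have hχm : ∀ x y, χ (x + y) = χ x * χ y := by
    intro x y; simp only [hχ, map_add]; exact hZ _ _
  have hχ0 : χ 0 = 1 := by simp [hχ]
  have hχ2 : ∀ x, χ x * χ x = 1 := by
    intro x; simp only [hχ]; split_ifs <;> norm_num
  have hχv : ∀ x, χ (x + v) = - χ x := by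
    intro x; rw [hχm]
    have : χ v = -1 := by simp [hχ, hℓ]
    rw [this]; ring
  have h3 : ∀ x, (fun x => χ x * |δ x|) (x+v) = - (fun x => χ x * |δ x|) x := by
    intro x; simp only [hχv, h2, abs_neg]; ring
  have hB : ind B = fun x => s x + δ x := by funext x; simp only [hs, hδ]; ring
  have hP : ind (pol ℓ v B) = fun x => s x + χ x * |δ x| := by
    funext x
    simp only [ind, pol, hs, hδ, hχ, mem_filter, mem_univ, true_and]
    by_cases a : ℓ x = 0 <;> by_cases b : x ∈ B <;> by_cases c : x + v ∈ B <;>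
      simp [a, b, c] <;> norm_num [abs_of_pos, abs_of_neg]
  have hcard : ((pol ℓ v B).card : ℚ) = B.card := by
    rw [← sum_ind, ← sum_ind, hP, hB]
    simp only [Finset.sum_add_distrib]
    congr 1
    have e1 := sum_shift_right (fun x => χ x * |δ x|) v
    have e2 := sum_shift_right δ v
    simp only [hχv, h2, abs_neg, neg_mul, Finset.sum_neg_distrib] at e1 e2
    linarith
  refine ⟨by exact_mod_cast hcard, ?_⟩
  have : (PA (k+1) B : ℚ) ≤ PA (k+1) (pol ℓ v B) := by
    rw [PA_eq, PA_eq, hP, hB]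
    rw [S_split s δ v hv h1 h2, S_split s (fun x => χ x * |δ x|) v hv h1 h3]
    rw [S_chi χ _ hχ0 hχm hχ2]
    have := S_abs δ (k+1)
    linarith
  exact_mod_cast this

end pol

section ext
variable {G : Type*} [AddCommGroup G] [Fintype G] [DecidableEq G]

omit [Fintype G] [DecidableEq G] in
lemma sep (h2 : ∀ x : G, x + x = 0) (K : AddSubgroup G) (x : G) (hx : x ∉ K) :
    ∃ ℓ : G →+ ZMod 2, ℓ x = 1 ∧ ∀ y ∈ K, ℓ y = 0 := by
  let : Module (ZMod 2) G := AddCommGroup.zmodModule (n := 2)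
    (by intro x; rw [two_nsmul]; exact h2 x)
  let K' : Submodule (ZMod 2) G := AddSubgroup.toZModSubmodule 2 K
  have hx' : x ∉ K' := hx
  obtain ⟨f, hf, hK⟩ := Submodule.exists_le_ker_of_notMem hx'
  refine ⟨f.toAddMonoidHom, ?_, ?_⟩
  · have h01 : ∀ a : ZMod 2, a = 0 ∨ a = 1 := by decide
    rcases h01 (f x) with h | h
    · exact absurd h hf
    · exact h
  · intro y hy
    have : y ∈ K' := hy
    exact hK this

lemma exists_sandwich (h2 : ∀ x : G, x + x = 0) (H' H : AddSubgroup G)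
    [DecidablePred (· ∈ H)] [DecidablePred (· ∈ H')] (hle : H' ≤ H)
    (b : ℕ) (hb1 : (univ.filter (· ∈ H')).card ≤ b) (hb2 : b ≤ (univ.filter (· ∈ H)).card)
    (k : ℕ) :
    ∃ B : Finset G, B.card = b ∧ (∀ x ∈ H', x ∈ B) ∧ (∀ x ∈ B, x ∈ H) ∧
      ∀ B' : Finset G, B'.card = b → PA (k+1) B' ≤ PA (k+1) B := by
  classical
  set n := Fintype.card G with hn
  set W : Finset G → ℕ := fun B => PA (k+1) B * (2 * n + 1) +
    ((B.filter (· ∈ H)).card + (B.filter (· ∈ H')).card) with hW
  have hbn : b ≤ (univ : Finset G).card := le_trans hb2 (Finset.card_le_card (Finset.filter_subset _ _))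
  have hne : (Finset.powersetCard b (univ : Finset G)).Nonempty := Finset.powersetCard_nonempty.mpr hbn
  obtain ⟨B, hB, hmax⟩ := Finset.exists_max_image _ W hne
  have hBc : B.card = b := (Finset.mem_powersetCard.mp hB).2
  have hmax' : ∀ B' : Finset G, B'.card = b → W B' ≤ W B := by
    intro B' hB'
    exact hmax B' (Finset.mem_powersetCard.mpr ⟨Finset.subset_univ _, hB'⟩)
  have hΦ : ∀ B : Finset G, (B.filter (· ∈ H)).card + (B.filter (· ∈ H')).card ≤ 2 * n := by
    intro B
    have h1 : (B.filter (· ∈ H)).card ≤ n := Finset.card_le_univ _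
    have h2 : (B.filter (· ∈ H')).card ≤ n := Finset.card_le_univ _
    omega
  -- key: a polarization that strictly increases the potential is impossible
  have key : ∀ (ℓ : G →+ ZMod 2) (v : G), ℓ v = 1 →
      (B.filter (· ∈ H)).card + (B.filter (· ∈ H')).card <
      ((pol ℓ v B).filter (· ∈ H)).card + ((pol ℓ v B).filter (· ∈ H')).card → False := by
    intro ℓ v hℓ hlt
    obtain ⟨p1, p2⟩ := pol_main ℓ v (h2 v) hℓ B k
    have := hmax' (pol ℓ v B) (by rw [p1, hBc])
    simp only [hW] at this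
    have h5 : PA (k+1) B * (2 * n + 1) ≤ PA (k+1) (pol ℓ v B) * (2 * n + 1) :=
      Nat.mul_le_mul_right _ p2
    omega
  have hBH : ∀ x ∈ B, x ∈ H := by
    by_contra hcon
    push Not at hcon
    obtain ⟨x, hxB, hxH⟩ := hcon
    have : ∃ y ∈ H, y ∉ B := by
      by_contra hc
      push Not at hc
      have hsub : insert x (univ.filter (· ∈ H)) ⊆ B := by
        intro z hz
        rcases Finset.mem_insert.mp hz with rfl | hz
        · exact hxB
        · exact hc z (Finset.mem_filter.mp hz).2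
      have h3 := Finset.card_le_card hsub
      rw [Finset.card_insert_of_notMem (by simp [hxH]), hBc] at h3
      omega
    obtain ⟨y, hyH, hyB⟩ := this
    obtain ⟨ℓ, hℓx, hℓH⟩ := sep h2 H x hxH
    have hℓv : ℓ (x + y) = 1 := by rw [map_add, hℓx, hℓH y hyH, add_zero]
    apply key ℓ (x + y) hℓv
    have hpolmem : ∀ z ∈ B, ℓ z = 0 → z ∈ pol ℓ (x+y) B := by
      intro z hz hz0
      simp only [pol, mem_filter, mem_univ, true_and]
      exact Or.inl ⟨hz0, Or.inl hz⟩
    have hy : y ∈ pol ℓ (x+y) B := by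
      simp only [pol, mem_filter, mem_univ, true_and]
      refine Or.inl ⟨hℓH y hyH, Or.inr ?_⟩
      have : y + (x + y) = x := by
        calc y + (x + y) = x + (y + y) := by abel
          _ = x := by rw [h2, add_zero]
      rw [this]; exact hxB
    have hlt : (B.filter (· ∈ H)).card < ((pol ℓ (x+y) B).filter (· ∈ H)).card := by
      apply Finset.card_lt_card
      refine ⟨?_, ?_⟩
      · intro z hz
        obtain ⟨hz1, hz2⟩ := Finset.mem_filter.mp hz
        exact Finset.mem_filter.mpr ⟨hpolmem z hz1 (hℓH z hz2), hz2⟩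
      · intro hsub
        have := hsub (Finset.mem_filter.mpr ⟨hy, hyH⟩)
        exact hyB (Finset.mem_filter.mp this).1
    have hle2 : (B.filter (· ∈ H')).card ≤ ((pol ℓ (x+y) B).filter (· ∈ H')).card := by
      apply Finset.card_le_card
      intro z hz
      obtain ⟨hz1, hz2⟩ := Finset.mem_filter.mp hz
      exact Finset.mem_filter.mpr ⟨hpolmem z hz1 (hℓH z (hle hz2)), hz2⟩
    omega
  have hHB : ∀ x ∈ H', x ∈ B := by
    by_contra hcon
    push Not at hcon
    obtain ⟨y, hyH, hyB⟩ := hcon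
    have : ∃ x ∈ B, x ∉ H' := by
      by_contra hc
      push Not at hc
      have hsub : insert y B ⊆ (univ.filter (· ∈ H')) := by
        intro z hz
        rcases Finset.mem_insert.mp hz with rfl | hz
        · exact Finset.mem_filter.mpr ⟨mem_univ _, hyH⟩
        · exact Finset.mem_filter.mpr ⟨mem_univ _, hc z hz⟩
      have h3 := Finset.card_le_card hsub
      rw [Finset.card_insert_of_notMem hyB, hBc] at h3
      omega
    obtain ⟨x, hxB, hxH⟩ := this
    obtain ⟨ℓ, hℓx, hℓH⟩ := sep h2 H' x hxH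
    have hℓv : ℓ (x + y) = 1 := by rw [map_add, hℓx, hℓH y hyH, add_zero]
    have hvH : x + y ∈ H := H.add_mem (hBH x hxB) (hle hyH)
    apply key ℓ (x + y) hℓv
    have hpolmem : ∀ z ∈ B, ℓ z = 0 → z ∈ pol ℓ (x+y) B := by
      intro z hz hz0
      simp only [pol, mem_filter, mem_univ, true_and]
      exact Or.inl ⟨hz0, Or.inl hz⟩
    have hy : y ∈ pol ℓ (x+y) B := by
      simp only [pol, mem_filter, mem_univ, true_and]
      refine Or.inl ⟨hℓH y hyH, Or.inr ?_⟩
      have : y + (x + y) = x := by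
        calc y + (x + y) = x + (y + y) := by abel
          _ = x := by rw [h2, add_zero]
      rw [this]; exact hxB
    have hlt : (B.filter (· ∈ H')).card < ((pol ℓ (x+y) B).filter (· ∈ H')).card := by
      apply Finset.card_lt_card
      refine ⟨?_, ?_⟩
      · intro z hz
        obtain ⟨hz1, hz2⟩ := Finset.mem_filter.mp hz
        exact Finset.mem_filter.mpr ⟨hpolmem z hz1 (hℓH z hz2), hz2⟩
      · intro hsub
        have := hsub (Finset.mem_filter.mpr ⟨hy, hyH⟩)
        exact hyB (Finset.mem_filter.mp this).1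
    have hpolH : ∀ z ∈ pol ℓ (x+y) B, z ∈ H := by
      intro z hz
      simp only [pol, mem_filter, mem_univ, true_and] at hz
      rcases hz with ⟨_, hz | hz⟩ | ⟨_, hz, _⟩
      · exact hBH z hz
      · have h7 := H.sub_mem (hBH _ hz) hvH
        simpa using h7
      · exact hBH z hz
    have e1 : (B.filter (· ∈ H)).card = b := by
      rw [Finset.filter_true_of_mem hBH, hBc]
    have e2 : ((pol ℓ (x+y) B).filter (· ∈ H)).card = b := by
      rw [Finset.filter_true_of_mem hpolH, (pol_main ℓ (x+y) (h2 _) hℓv B k).1, hBc]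
    omega
  refine ⟨B, hBc, hHB, hBH, ?_⟩
  intro B' hB'
  have h6 := hmax' B' hB'
  simp only [hW] at h6
  have h7 := hΦ B
  by_contra hlt
  push Not at hlt
  have h8 : (PA (k+1) B + 1) * (2 * n + 1) ≤ PA (k+1) B' * (2 * n + 1) :=
    Nat.mul_le_mul_right _ hlt
  rw [add_mul] at h8
  omega

end ext

section sub

lemma exists_subgroup_aux (N : ℕ) : ∀ (G : Type*) [AddCommGroup G] [Finite G], Nat.card G = N →
    ∀ d, d ∣ N → ∃ H : AddSubgroup G, Nat.card H = d := by
  induction N using Nat.strong_induction_on with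
  | _ N ih =>
    intro G _ _ hG d hd
    by_cases hd1 : d = 1
    · exact ⟨⊥, by simp [hd1]⟩
    obtain ⟨p, hp, hpd⟩ := Nat.exists_prime_and_dvd hd1
    have : Fact p.Prime := ⟨hp⟩
    have hpG : p ∣ Nat.card G := hG ▸ hpd.trans hd
    obtain ⟨x, hx⟩ := exists_prime_addOrderOf_dvd_card' p hpG
    set C := AddSubgroup.zmultiples x with hCdef
    have hC : Nat.card C = p := by rw [Nat.card_zmultiples, hx]
    have hq : Nat.card G = Nat.card (G ⧸ C) * Nat.card C :=
      AddSubgroup.card_eq_card_quotient_mul_card_addSubgroup C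
    obtain ⟨e, rfl⟩ := hpd
    have hNpos : 0 < Nat.card G := Nat.card_pos
    have hQpos : 0 < Nat.card (G ⧸ C) := Nat.card_pos
    rw [hC] at hq
    have hlt : Nat.card (G ⧸ C) < N := by
      rw [← hG, hq]
      have := hp.two_le
      nlinarith
    have hed : e ∣ Nat.card (G ⧸ C) := by
      rw [← hG, hq, mul_comm _ p] at hd
      exact Nat.dvd_of_mul_dvd_mul_left hp.pos hd
    obtain ⟨K, hK⟩ := ih _ hlt (G ⧸ C) rfl e hed
    refine ⟨K.comap (QuotientAddGroup.mk' C), ?_⟩
    have h1 := K.index_comap_of_surjective (QuotientAddGroup.mk'_surjective C)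
    have h2 := K.card_mul_index
    have h3 := (K.comap (QuotientAddGroup.mk' C)).card_mul_index
    rw [h1, hq, ← h2, hK] at h3
    have hi : 0 < K.index := by
      rcases Nat.eq_zero_or_pos K.index with h | h
      · rw [h, mul_zero] at h2; omega
      · exact h
    have h4 : Nat.card (K.comap (QuotientAddGroup.mk' C)) * K.index = (p * e) * K.index := by
      rw [h3]; ring
    exact Nat.eq_of_mul_eq_mul_right hi h4

lemma exists_subgroup (G : Type*) [AddCommGroup G] [Finite G] (d : ℕ) (hd : d ∣ Nat.card G) :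
    ∃ H : AddSubgroup G, Nat.card H = d := exists_subgroup_aux _ G rfl d hd

/-- two nested subgroups of orders `e` and `2 e`, with the parity property -/
lemma exists_nested (G : Type*) [AddCommGroup G] [Finite G] (e : ℕ) (he : 0 < e)
    (hd : 2 * e ∣ Nat.card G) :
    ∃ H' H : AddSubgroup G, H' ≤ H ∧ Nat.card H' = e ∧ Nat.card H = 2 * e ∧
      ∀ (k : ℕ) (a : Fin k → G), (∀ i, a i ∈ H ∧ a i ∉ H') → (Even k ↔ ∑ i, a i ∈ H') := by
  obtain ⟨H, hH⟩ := exists_subgroup G (2*e) hd
  obtain ⟨K, hK⟩ := exists_subgroup H e (by rw [hH]; exact Dvd.intro_left 2 rfl)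
  have hidx : K.index = 2 := by
    have := K.card_mul_index
    rw [hK, hH, mul_comm 2 e] at this
    exact Nat.eq_of_mul_eq_mul_left he this
  refine ⟨K.map H.subtype, H, ?_, ?_, hH, ?_⟩
  · intro x hx
    obtain ⟨y, _, rfl⟩ := hx
    exact y.2
  · rw [← hK]
    exact (Nat.card_congr (K.equivMapOfInjective H.subtype H.subtype_injective).toEquiv).symm
  · have hmem : ∀ (x : G) (hx : x ∈ H), x ∈ K.map H.subtype ↔ (⟨x, hx⟩ : H) ∈ K := by
      intro x hx
      constructor
      · rintro ⟨y, hy, hyx⟩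
        have : y = ⟨x, hx⟩ := Subtype.ext hyx
        rw [← this]; exact hy
      · intro h
        exact ⟨⟨x, hx⟩, h, rfl⟩
    intro k
    induction k with
    | zero => intro a _; simp
    | succ k ih =>
      intro a ha
      rw [Fin.sum_univ_succ]
      have ih' := ih (fun i => a i.succ) (fun i => ha i.succ)
      have hsumH : ∑ i : Fin k, a i.succ ∈ H := H.sum_mem (fun i _ => (ha i.succ).1)
      have ha0 := ha 0
      rw [hmem _ (H.add_mem ha0.1 hsumH)]
      have e1 : (⟨a 0 + ∑ i : Fin k, a i.succ, H.add_mem ha0.1 hsumH⟩ : H)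
          = ⟨a 0, ha0.1⟩ + ⟨∑ i : Fin k, a i.succ, hsumH⟩ := rfl
      rw [e1, AddSubgroup.add_mem_iff_of_index_two hidx]
      rw [hmem _ hsumH] at ih'
      have ha0' : (⟨a 0, ha0.1⟩ : H) ∉ K := by
        rw [← hmem]; exact ha0.2
      rw [← ih', Nat.even_add_one]
      simp [ha0']

end sub

section final
variable {G : Type*} [AddCommGroup G] [Fintype G] [DecidableEq G]

lemma P_spec (k m : ℕ) (hm : m ≤ Fintype.card G) : ∃ A : Finset G, A.card = m ∧ PA k A = P G k m := by
  have hne : {x : ℕ | ∃ A : Finset G, A.card = m ∧ PA k A = x}.Nonempty := by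
    obtain ⟨A, _, hA⟩ := Finset.exists_subset_card_eq (s := (univ : Finset G)) (n := m) hm
    exact ⟨PA k A, A, hA, rfl⟩
  exact Nat.sInf_mem hne

lemma P_le (k : ℕ) (A : Finset G) : P G k A.card ≤ PA k A := Nat.sInf_le ⟨A, rfl, rfl⟩

lemma P_le' (k m : ℕ) (A : Finset G) (hA : A.card = m) : P G k m ≤ PA k A := hA ▸ P_le k A

/-- The global complement identity. -/
lemma complement (k : ℕ) (hk : 1 ≤ k) (A : Finset G) :
    (Fintype.card G : ℚ) * PA k A = (A.card : ℚ)^(k+1)
      + (-1)^(k+1) * ((Fintype.card G : ℚ) * PA k Aᶜ - (Aᶜ.card : ℚ)^(k+1)) := by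
  classical
  obtain ⟨k, rfl⟩ : ∃ k', k = k' + 1 := ⟨k - 1, by omega⟩
  have h := PA_complement (⊤ : AddSubgroup G) A Aᶜ (by intro x; simp [em]) (by intro x hx; simp [hx]) k
  have hc : (A.card : ℚ) + Aᶜ.card = Fintype.card G := by
    have := Finset.card_add_card_compl A
    exact_mod_cast this
  rw [hc] at h
  exact h

lemma PA_le_pow (k : ℕ) (A : Finset G) : PA k A ≤ A.card^k := by
  unfold PA
  have : (univ.filter (fun a : Fin k → G => (∀ i, a i ∈ A) ∧ ∑ i, a i ∈ A)) ⊆
      Fintype.piFinset (fun _ : Fin k => A) := by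
    intro a ha
    rw [Fintype.mem_piFinset]
    exact (Finset.mem_filter.mp ha).2.1
  refine le_trans (Finset.card_le_card this) ?_
  rw [Fintype.card_piFinset]
  simp

lemma PA_subgroup (k : ℕ) (A : Finset G) (H : AddSubgroup G) (hA : ∀ x, x ∈ A ↔ x ∈ H) :
    PA k A = A.card^k := by
  unfold PA
  have : (univ.filter (fun a : Fin k → G => (∀ i, a i ∈ A) ∧ ∑ i, a i ∈ A)) =
      Fintype.piFinset (fun _ : Fin k => A) := by
    ext a
    rw [Fintype.mem_piFinset, Finset.mem_filter]
    constructor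
    · exact fun h => h.2.1
    · intro h
      refine ⟨mem_univ _, h, ?_⟩
      rw [hA]
      exact H.sum_mem (fun i _ => (hA _).mp (h i))
  rw [this, Fintype.card_piFinset]
  simp

/-- For every finite abelian group `G` of order `n`, every `k ≥ 1` and `1 ≤ m ≤ n`. -/
theorem result (G : Type*) [AddCommGroup G] [Fintype G] [DecidableEq G] (k m : ℕ)
    (hk : 1 ≤ k) (hm1 : 1 ≤ m) (hmn : m ≤ Fintype.card G) :
    -- the case `m = n`
    (m = Fintype.card G → P G k m = m ^ k) ∧
    -- odd `k`: duality between `m` and `n - m`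
    (Odd k → (P G k m : ℚ) =
      ((m : ℚ)^(k+1) - ((Fintype.card G : ℚ) - m)^(k+1)) / Fintype.card G
        + P G k (Fintype.card G - m)) ∧
    -- odd `k`: exact value as soon as some coset solution-free set has at least `n - m` elements
    (Odd k → ∀ (H : AddSubgroup G) (c : G), (k - 1) • c ∉ H →
      Fintype.card G - m ≤ Nat.card H → (P G k m : ℚ) =
        ((m : ℚ)^(k+1) - ((Fintype.card G : ℚ) - m)^(k+1)) / Fintype.card G) ∧
    -- even `k`: a lower bound for all `m`
    (Even k → (m : ℚ) * ((m : ℚ)^k - ((Fintype.card G : ℚ) - m)^k) / Fintype.card G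
      ≤ (P G k m : ℚ)) ∧
    -- even `k`: exact value when `n - m` divides `n`
    (Even k → (Fintype.card G - m) ∣ Fintype.card G → (P G k m : ℚ) =
      (m : ℚ) * ((m : ℚ)^k - ((Fintype.card G : ℚ) - m)^k) / Fintype.card G) ∧
    -- even `k`, elementary abelian `2`-groups: exact value for every `m < n`
    (Even k → (∀ x : G, x + x = 0) → m < Fintype.card G →
      ∀ N : ℕ, N = 2 ^ (Nat.log 2 (Fintype.card G - m) + 1) → (P G k m : ℚ) =
      ((m : ℚ)^(k+1) + ((Fintype.card G : ℚ) - m)^(k+1)) / Fintype.card G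
      - (((Fintype.card G : ℚ) - m)^(k+1) + ((N : ℚ) - ((Fintype.card G : ℚ) - m))^(k+1)) / N) := by
  classical
  set n := Fintype.card G with hn
  have hnpos : 0 < n := Fintype.card_pos
  have hnQ : (0:ℚ) < n := by exact_mod_cast hnpos
  have hnQ0 : (n:ℚ) ≠ 0 := ne_of_gt hnQ
  have hcast : ((n - m : ℕ) : ℚ) = (n:ℚ) - m := by rw [Nat.cast_sub hmn]
  have hcompl : ∀ A : Finset G, A.card = m → Aᶜ.card = n - m := by
    intro A hA; rw [Finset.card_compl, hA]
  have hcompl' : ∀ A : Finset G, A.card = n - m → Aᶜ.card = m := by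
    intro A hA; rw [Finset.card_compl, hA]; omega
  obtain ⟨A₀, hA₀, hPA₀⟩ := P_spec (G := G) k m hmn
  have hodd : Odd k → ∀ A : Finset G, A.card = m → (n:ℚ) * PA k A
      = (m:ℚ)^(k+1) - ((n:ℚ) - m)^(k+1) + n * PA k Aᶜ := by
    intro hk2 A hA
    have h := complement k hk A
    have e : ((-1:ℚ))^(k+1) = 1 := Even.neg_one_pow (by
      rcases hk2 with ⟨r, rfl⟩; exact ⟨r+1, by ring⟩)
    rw [e, hA, hcompl A hA, hcast] at h
    rw [h]; ring
  have heven : Even k → ∀ A : Finset G, A.card = m → (n:ℚ) * PA k A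
      = (m:ℚ)^(k+1) + ((n:ℚ) - m)^(k+1) - n * PA k Aᶜ := by
    intro hk2 A hA
    have h := complement k hk A
    have e : ((-1:ℚ))^(k+1) = -1 := Odd.neg_one_pow (by
      rcases hk2 with ⟨r, rfl⟩; exact ⟨r, by ring⟩)
    rw [e, hA, hcompl A hA, hcast] at h
    rw [h]; ring
  have hdual : Odd k → (P G k m : ℚ) =
      ((m : ℚ)^(k+1) - ((n : ℚ) - m)^(k+1)) / n + P G k (n - m) := by
    intro hk2
    obtain ⟨B₀, hB₀, hPB₀⟩ := P_spec (G := G) k (n - m) (by omega)
    have h1 := hodd hk2 A₀ hA₀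
    have h2 := hodd hk2 B₀ᶜ (hcompl' B₀ hB₀)
    rw [compl_compl] at h2
    have h3 : (P G k (n - m) : ℚ) ≤ PA k A₀ᶜ := by
      exact_mod_cast P_le' k (n-m) A₀ᶜ (hcompl A₀ hA₀)
    have h4 : (P G k m : ℚ) ≤ PA k B₀ᶜ := by
      exact_mod_cast P_le' k m B₀ᶜ (hcompl' B₀ hB₀)
    rw [hPA₀] at h1
    rw [hPB₀] at h2
    have h5 : (n:ℚ) * P G k m = (m:ℚ)^(k+1) - ((n:ℚ) - m)^(k+1) + n * P G k (n - m) := by
      apply le_antisymm
      · rw [← h2]; exact mul_le_mul_of_nonneg_left h4 hnQ.le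
      · rw [h1]
        have := mul_le_mul_of_nonneg_left h3 hnQ.le
        linarith
    field_simp
    linarith
  have hlow : Even k → (m : ℚ) * ((m : ℚ)^k - ((n : ℚ) - m)^k) / n ≤ (P G k m : ℚ) := by
    intro hk2
    have h1 := heven hk2 A₀ hA₀
    rw [hPA₀] at h1
    have h2 : (PA k A₀ᶜ : ℚ) ≤ ((n:ℚ) - m)^k := by
      rw [← hcast, ← hcompl A₀ hA₀]
      exact_mod_cast PA_le_pow k A₀ᶜ
    rw [div_le_iff₀ hnQ]
    have h3 := mul_le_mul_of_nonneg_left h2 hnQ.le
    have h4 : ((n:ℚ) - m)^(k+1) = ((n:ℚ) - m)^k * ((n:ℚ) - m) := pow_succ _ _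
    have h5 : (m:ℚ)^(k+1) = (m:ℚ)^k * m := pow_succ _ _
    rw [h4, h5] at h1
    linarith
  refine ⟨?_, hdual, ?_, hlow, ?_, ?_⟩
  · intro hmn'
    have : A₀ = univ := by
      rw [← Finset.card_eq_iff_eq_univ, hA₀, hmn']
    rw [← hPA₀, PA_subgroup k A₀ ⊤ (by intro x; simp [this]), hA₀]
  · intro hk2 H c hc hle
    rw [hdual hk2]
    have : P G k (n - m) = 0 := by
      -- a solution-free set inside the coset `c + H`
      set C : Finset G := univ.filter (fun x => x - c ∈ H) with hC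
      have hCc : C.card = Nat.card H := by
        rw [Nat.card_eq_fintype_card, ← Fintype.card_coe]
        refine Fintype.card_congr ⟨fun x => ⟨x.1 - c, (Finset.mem_filter.mp x.2).2⟩,
          fun y => ⟨y.1 + c, Finset.mem_filter.mpr ⟨mem_univ _, by simp⟩⟩, ?_, ?_⟩
        · intro x; simp
        · intro y; simp
      obtain ⟨B, hBC, hB⟩ := Finset.exists_subset_card_eq (s := C) (n := n - m) (by rw [hCc]; exact hle)
      have hB0 : PA k B = 0 := by
        unfold PA
        rw [Finset.card_eq_zero, Finset.filter_eq_empty_iff]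
        rintro a _ ⟨h1, h2⟩
        apply hc
        have h3 : ∀ i, a i - c ∈ H := fun i => (Finset.mem_filter.mp (hBC (h1 i))).2
        have h4 : ∑ i, a i - c ∈ H := (Finset.mem_filter.mp (hBC h2)).2
        have h5 : ∑ i, (a i - c) ∈ H := H.sum_mem (fun i _ => h3 i)
        rw [Finset.sum_sub_distrib, Finset.sum_const, Finset.card_univ, Fintype.card_fin] at h5
        have h6 := H.sub_mem h4 h5
        have h7 : ∑ i, a i - c - (∑ i, a i - k • c) = (k - 1) • c := by
          obtain ⟨k, rfl⟩ : ∃ k', k = k' + 1 := ⟨k - 1, by omega⟩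
          rw [Nat.add_sub_cancel, succ_nsmul]; abel
        rw [h7] at h6
        exact h6
      have := P_le' k (n - m) B hB
      omega
    rw [this]; simp
  · intro hk2 hdvd
    apply le_antisymm _ (hlow hk2)
    obtain ⟨H, hH⟩ := exists_subgroup G (n - m) (by rw [Nat.card_eq_fintype_card]; exact hdvd)
    set B : Finset G := univ.filter (· ∈ H) with hB
    have hBc : B.card = n - m := by
      rw [← hH, Nat.card_eq_fintype_card, ← Fintype.card_coe]
      exact Fintype.card_congr (Equiv.subtypeEquivRight (by intro x; simp [hB]))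
    have hPB : PA k B = B.card^k := PA_subgroup k B H (by intro x; simp [hB])
    have h1 := heven hk2 Bᶜ (hcompl' B hBc)
    rw [compl_compl, hPB, hBc] at h1
    push_cast at h1
    rw [hcast] at h1
    have h2 : (P G k m : ℚ) ≤ PA k Bᶜ := by exact_mod_cast P_le' k m Bᶜ (hcompl' B hBc)
    rw [le_div_iff₀ hnQ]
    have h3 := mul_le_mul_of_nonneg_left h2 hnQ.le
    have h4 : ((n:ℚ) - m)^(k+1) = ((n:ℚ) - m)^k * ((n:ℚ) - m) := pow_succ _ _
    have h5 : (m:ℚ)^(k+1) = (m:ℚ)^k * m := pow_succ _ _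
    rw [h4, h5] at h1
    linarith
  · intro hk2 hG hlt N hN
    -- `n` is a power of two
    obtain ⟨d, hd⟩ : ∃ d, n = 2 ^ d := by
      let : Module (ZMod 2) G := AddCommGroup.zmodModule (n := 2)
        (by intro x; rw [two_nsmul]; exact hG x)
      refine ⟨Module.finrank (ZMod 2) G, ?_⟩
      rw [hn, Module.card_eq_pow_finrank (K := ZMod 2) (V := G), ZMod.card]
    set b := n - m with hb
    have hbpos : 0 < b := by omega
    set j := Nat.log 2 b with hj
    have hj1 : 2 ^ j ≤ b := Nat.pow_log_le_self 2 (by omega)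
    have hj2 : b < 2 ^ (j+1) := Nat.lt_pow_succ_log_self (by norm_num) b
    have hjd : j + 1 ≤ d := by
      have : 2 ^ j < 2 ^ d := by omega
      exact (Nat.pow_lt_pow_iff_right (by norm_num)).mp this
    obtain ⟨H', H, hle, hH', hH, hpar⟩ := exists_nested G (2^j) (by positivity)
      (by rw [Nat.card_eq_fintype_card, ← hn, hd, ← pow_succ']; exact pow_dvd_pow 2 hjd)
    have hcH : (univ.filter (· ∈ H)).card = 2 ^ (j+1) := by
      rw [pow_succ', ← hH, Nat.card_eq_fintype_card, ← Fintype.card_coe]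
      exact Fintype.card_congr (Equiv.subtypeEquivRight (by intro x; simp))
    have hcH' : (univ.filter (· ∈ H')).card = 2 ^ j := by
      rw [← hH', Nat.card_eq_fintype_card, ← Fintype.card_coe]
      exact Fintype.card_congr (Equiv.subtypeEquivRight (by intro x; simp))
    obtain ⟨k', rfl⟩ : ∃ k', k = k' + 1 := ⟨k - 1, by omega⟩
    obtain ⟨B, hBc, hB1, hB2, hBmax⟩ := exists_sandwich hG H' H hle b (by rw [hcH']; exact hj1)
      (by rw [hcH]; exact hj2.le) k'
    -- the number for `B`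
    set B' : Finset G := univ.filter (fun x => x ∈ H ∧ x ∉ B) with hB'
    have hB'0 : PA (k'+1) B' = 0 := by
      unfold PA
      rw [Finset.card_eq_zero, Finset.filter_eq_empty_iff]
      rintro a _ ⟨h1, h2⟩
      have h3 : ∀ i, a i ∈ H ∧ a i ∉ H' := by
        intro i
        have := (Finset.mem_filter.mp (h1 i)).2
        exact ⟨this.1, fun h => this.2 (hB1 _ h)⟩
      have h4 := (hpar (k'+1) a h3).mp hk2
      have h5 := (Finset.mem_filter.mp h2).2
      exact h5.2 (hB1 _ h4)
    have hsum : (B.card : ℚ) + B'.card = 2 ^ (j+1) := by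
      have : B.card + B'.card = 2 ^ (j+1) := by
        rw [← hcH, ← Finset.card_union_of_disjoint]
        · congr 1
          ext x
          simp only [hB', mem_union, mem_filter, mem_univ, true_and]
          constructor
          · rintro (h | h)
            · exact hB2 x h
            · exact h.1
          · intro h
            by_cases hx : x ∈ B
            · exact Or.inl hx
            · exact Or.inr ⟨h, hx⟩
        · rw [Finset.disjoint_left]
          intro x hx hx'
          exact (Finset.mem_filter.mp hx').2.2 hx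
      exact_mod_cast this
    have hmain := PA_complement H B B' (by
      intro x
      simp only [hB', mem_filter, mem_univ, true_and]
      constructor
      · intro h
        by_cases hx : x ∈ B
        · exact Or.inl hx
        · exact Or.inr ⟨h, hx⟩
      · rintro (h | h)
        · exact hB2 x h
        · exact h.1) (by
      intro x hx hx'
      exact (Finset.mem_filter.mp hx').2.2 hx) k'
    have hsgn : ((-1:ℚ))^(k'+2) = -1 := Odd.neg_one_pow (by
      rcases hk2 with ⟨r, hr⟩; exact ⟨r, by omega⟩)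
    rw [hsgn, hB'0, hsum] at hmain
    have hB'c : (B'.card : ℚ) = (N:ℚ) - ((n:ℚ) - m) := by
      rw [← hcast, ← hBc, hN]; push_cast; linarith
    rw [hB'c, hBc, hcast] at hmain
    have hN' : (N:ℚ) = 2^(j+1) := by rw [hN]; push_cast; rfl
    have hNpos : (0:ℚ) < N := by rw [hN']; positivity
    have hPAB : (PA (k'+1) B : ℚ) = (((n : ℚ) - m)^(k'+1+1) + ((N : ℚ) - ((n : ℚ) - m))^(k'+1+1)) / N := by
      rw [eq_div_iff (ne_of_gt hNpos), hN']
      rw [hN'] at hmain
      rw [mul_comm, hmain]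
      push_cast
      ring
    have h1 := heven hk2 Bᶜ (hcompl' B hBc)
    rw [compl_compl] at h1
    have h2 := heven hk2 A₀ hA₀
    rw [hPA₀] at h2
    have h3 : (PA (k'+1) A₀ᶜ : ℚ) ≤ PA (k'+1) B := by
      exact_mod_cast hBmax A₀ᶜ (hcompl A₀ hA₀)
    have h4 : (P G (k'+1) m : ℚ) ≤ PA (k'+1) Bᶜ := by
      exact_mod_cast P_le' (k'+1) m Bᶜ (hcompl' B hBc)
    have h5 : (n:ℚ) * P G (k'+1) m = (m:ℚ)^(k'+1+1) + ((n:ℚ) - m)^(k'+1+1) - n * PA (k'+1) B := by
      apply le_antisymm
      · rw [← h1]; exact mul_le_mul_of_nonneg_left h4 hnQ.le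
      · rw [h2]
        have := mul_le_mul_of_nonneg_left h3 hnQ.le
        linarith
    rw [← hPAB]
    rw [eq_sub_iff_add_eq, eq_div_iff hnQ0]
    linarith

end final

end Pool.Agent.Results.MP_ed46bc_co.Duality
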